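import Pool.Agent.Helper41.TRI.Grow

/-!
# CV block K1a: two elements of `V` which generate the graded algebra of the `V ^ m` up to finitely many degrees
-/

set_option autoImplicit false

namespace Pool.Agent.CV

open Module Pool.Agent.TRI

section

variable {k E : Type*} [Field k] [Field E] [Algebra k E]

/-- `P` is a reduction of `U` -/
private def Red (P U : Submodule k E) : Prop := P ≤ U ∧ ∃ m : ℕ, U ^ (m + 1) ≤ P * U ^ m

private theorem mul_le_mul_l4 {M N P : Submodule k E} (h : M ≤ N) : M * P ≤ N * P := mul_le_mul' h le_rfl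

private theorem mul_le_mul_r4 {M N P : Submodule k E} (h : M ≤ N) : P * M ≤ P * N := mul_le_mul' le_rfl h

private theorem pow_sup_le (U W : Submodule k E) (n : ℕ) : (U ⊔ W) ^ (n + 1) ≤ U ^ (n + 1) ⊔ W * (U ⊔ W) ^ n := by
  induction n with
  | zero => rw [zero_add, pow_one, pow_one, pow_zero, mul_one]
  | succ n ih =>
    rw [pow_succ (U ⊔ W) (n + 1)]
    refine (mul_le_mul_l4 ih).trans ?_
    rw [Submodule.sup_mul]
    refine sup_le ?_ ?_
    · rw [Submodule.mul_sup, ← pow_succ]
      refine sup_le le_sup_left (le_trans ?_ le_sup_right)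
      rw [mul_comm (U ^ (n + 1)) W]
      exact mul_le_mul_r4 (pow_le_pow_left' le_sup_left _)
    · rw [mul_assoc, ← pow_succ]
      exact le_sup_right

private theorem Red.iter {P U : Submodule k E} {m : ℕ} (h : U ^ (m + 1) ≤ P * U ^ m) (j : ℕ) : U ^ (m + j) ≤ P ^ j * U ^ m := by
  induction j with
  | zero => rw [add_zero, pow_zero, one_mul]
  | succ j ih =>
    calc U ^ (m + (j + 1)) = U * U ^ (m + j) := by rw [← pow_succ', add_assoc]
      _ ≤ U * (P ^ j * U ^ m) := mul_le_mul_r4 ih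
      _ = P ^ j * U ^ (m + 1) := by rw [pow_succ]; ring
      _ ≤ P ^ j * (P * U ^ m) := mul_le_mul_r4 h
      _ = P ^ (j + 1) * U ^ m := by rw [pow_succ, mul_assoc]

private theorem Red.trans {Q P U : Submodule k E} (h1 : Red Q P) (h2 : Red P U) : Red Q U := by
  obtain ⟨h1, m1, h1'⟩ := h1
  obtain ⟨h2, m2, h2'⟩ := h2
  refine ⟨h1.trans h2, m2 + m1, ?_⟩
  calc U ^ (m2 + m1 + 1) = U ^ (m2 + (m1 + 1)) := by rw [add_assoc]
    _ ≤ P ^ (m1 + 1) * U ^ m2 := Red.iter h2' (m1 + 1)
    _ ≤ (Q * P ^ m1) * U ^ m2 := mul_le_mul_l4 h1'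
    _ ≤ (Q * U ^ m1) * U ^ m2 := mul_le_mul_l4 (mul_le_mul_r4 (pow_le_pow_left' h2 _))
    _ = Q * U ^ (m2 + m1) := by rw [mul_assoc, ← pow_add, add_comm m1 m2]

private theorem Red.add {P U : Submodule k E} (h : Red P U) (W : Submodule k E) : Red (P ⊔ W) (U ⊔ W) := by
  obtain ⟨h1, m, h2⟩ := h
  refine ⟨sup_le_sup_right h1 W, m, (pow_sup_le U W m).trans ?_⟩
  rw [Submodule.sup_mul]
  refine sup_le_sup ?_ le_rfl
  exact h2.trans (mul_le_mul_r4 (pow_le_pow_left' le_sup_left _))

/-- the products with a factor in `P` -/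
private def Qs (P W : Submodule k E) : ℕ → Submodule k E
  | 0 => ⊥
  | n + 1 => P * W ^ n

private theorem Qs_le {P W : Submodule k E} (hP : P ≤ W) (n : ℕ) : Qs P W n ≤ W ^ n := by
  cases n with
  | zero => exact bot_le
  | succ n =>
    show P * W ^ n ≤ W ^ (n + 1)
    rw [pow_succ']
    exact mul_le_mul_l4 hP

private theorem Qs_mul {P W : Submodule k E} {n n' : ℕ} {x y : E} (hx : x ∈ W ^ n) (hy : y ∈ Qs P W n') :
    x * y ∈ Qs P W (n + n') := by
  cases n' with
  | zero =>
    have h1 : y = 0 := (Submodule.mem_bot k).1 hy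
    rw [h1, mul_zero]
    exact Submodule.zero_mem _
  | succ n' =>
    have h1 : y ∈ P * W ^ n' := hy
    show x * y ∈ P * W ^ (n + n')
    have h2 : x * y ∈ W ^ n * (P * W ^ n') := Submodule.mul_mem_mul hx h1
    have h3 : W ^ n * (P * W ^ n') = P * W ^ (n + n') := by
      rw [pow_add]
      ring
    rwa [h3] at h2

/-- congruence modulo the products with a factor in `P` -/
private def Cg (P W : Submodule k E) (n : ℕ) (x y : E) : Prop := x ∈ W ^ n ∧ y ∈ W ^ n ∧ x - y ∈ Qs P W n

private theorem Cg.mul {P W : Submodule k E} {n n' : ℕ} {x y x' y' : E} (h : Cg P W n x y) (h' : Cg P W n' x' y') :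
    Cg P W (n + n') (x * x') (y * y') := by
  refine ⟨?_, ?_, ?_⟩
  · rw [pow_add]
    exact Submodule.mul_mem_mul h.1 h'.1
  · rw [pow_add]
    exact Submodule.mul_mem_mul h.2.1 h'.2.1
  · have h1 : x * x' - y * y' = x * (x' - y') + y' * (x - y) := by ring
    rw [h1]
    refine Submodule.add_mem _ (Qs_mul h.1 h'.2.2) ?_
    rw [add_comm n n']
    exact Qs_mul h'.2.1 h.2.2

private theorem Cg.pow {P W : Submodule k E} {x y : E} (h : Cg P W 1 x y) (i : ℕ) : Cg P W i (x ^ i) (y ^ i) := by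
  induction i with
  | zero =>
    refine ⟨?_, ?_, ?_⟩
    · rw [pow_zero, pow_zero]
      exact Submodule.one_le.1 le_rfl
    · rw [pow_zero, pow_zero]
      exact Submodule.one_le.1 le_rfl
    · rw [pow_zero, pow_zero, sub_self]
      exact Submodule.zero_mem _
  | succ i ih =>
    rw [pow_succ, pow_succ]
    exact ih.mul h

private theorem exists_c {k : Type*} [Field k] [Infinite k] {a : ℕ} (lam : Fin (a + 1) × Fin (a + 1) → k) (h : lam ≠ 0) :
    ∃ c c' : k, ∑ p, lam p * (c ^ (p.1 : ℕ) * c' ^ (p.2 : ℕ)) ≠ 0 := by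
  classical
  obtain ⟨⟨i₀, j₀⟩, h0⟩ := Function.ne_iff.1 h
  let g : Fin (a + 1) → Polynomial k := fun i => ∑ j : Fin (a + 1), Polynomial.monomial (j : ℕ) (lam (i, j))
  have hg : g i₀ ≠ 0 := by
    intro h1
    apply h0
    have h2 : (g i₀).coeff j₀ = lam (i₀, j₀) := by
      show (∑ j : Fin (a + 1), Polynomial.monomial (j : ℕ) (lam (i₀, j))).coeff j₀ = _
      rw [Polynomial.finsetSum_coeff, Finset.sum_eq_single j₀]
      · rw [Polynomial.coeff_monomial, if_pos rfl]
      · intro j _ hj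
        rw [Polynomial.coeff_monomial, if_neg fun hh => hj (Fin.ext hh)]
      · intro hh
        exact absurd (Finset.mem_univ _) hh
    rw [h1, Polynomial.coeff_zero] at h2
    exact h2.symm
  obtain ⟨c', hc'⟩ : ∃ c', (g i₀).eval c' ≠ 0 := by
    by_contra hcon
    push Not at hcon
    exact hg (Polynomial.funext fun x => by rw [hcon x, Polynomial.eval_zero])
  let f : Polynomial k := ∑ i : Fin (a + 1), Polynomial.monomial (i : ℕ) ((g i).eval c')
  have hf : f ≠ 0 := by
    intro h1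
    apply hc'
    have h2 : f.coeff i₀ = (g i₀).eval c' := by
      show (∑ i : Fin (a + 1), Polynomial.monomial (i : ℕ) ((g i).eval c')).coeff i₀ = _
      rw [Polynomial.finsetSum_coeff, Finset.sum_eq_single i₀]
      · rw [Polynomial.coeff_monomial, if_pos rfl]
      · intro j _ hj
        rw [Polynomial.coeff_monomial, if_neg fun hh => hj (Fin.ext hh)]
      · intro hh
        exact absurd (Finset.mem_univ _) hh
    rw [h1, Polynomial.coeff_zero] at h2
    exact h2.symm
  obtain ⟨c, hc⟩ : ∃ c, f.eval c ≠ 0 := by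
    by_contra hcon
    push Not at hcon
    exact hf (Polynomial.funext fun x => by rw [hcon x, Polynomial.eval_zero])
  refine ⟨c, c', ?_⟩
  have h1 : f.eval c = ∑ p, lam p * (c ^ (p.1 : ℕ) * c' ^ (p.2 : ℕ)) := by
    show (∑ i : Fin (a + 1), Polynomial.monomial (i : ℕ) ((g i).eval c')).eval c = _
    rw [Polynomial.eval_finsetSum, Fintype.sum_prod_type]
    refine Finset.sum_congr rfl fun i _ => ?_
    show (Polynomial.monomial (i : ℕ) ((∑ j : Fin (a + 1), Polynomial.monomial (j : ℕ) (lam (i, j))).eval c')).eval c = _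
    rw [Polynomial.eval_monomial, Polynomial.eval_finsetSum, Finset.sum_mul]
    refine Finset.sum_congr rfl fun j _ => ?_
    rw [Polynomial.eval_monomial]
    ring
  rw [← h1]
  exact hc

/-- three elements have a reduction generated by two elements -/
private theorem red_three [CharZero k] {V : Submodule k E} [FiniteDimensional k V] (hC : Crv V) {u v w : E} (hu : u ∈ V)
    (hv : v ∈ V) (hw : w ∈ V) : ∃ a b : E, a ∈ V ∧ b ∈ V ∧
      Red (Submodule.span k {a, b}) (Submodule.span k {u, v} ⊔ Submodule.span k {w}) := by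
  classical
  obtain ⟨C, hCg⟩ := grow_le hC
  set a := 2 * C with ha
  have hfd : FiniteDimensional k ↥(V ^ (a + a)) :=
    (Submodule.fg_iff_finiteDimensional _).1 (((Submodule.fg_iff_finiteDimensional V).2 inferInstance).pow (a + a))
  -- a relation
  have hmem : ∀ p : Fin (a + 1) × Fin (a + 1), u ^ (p.1 : ℕ) * v ^ (p.2 : ℕ) * w ^ (a + a - p.1 - p.2) ∈ V ^ (a + a) := by
    intro p
    have h1 := Nat.lt_succ_iff.1 p.1.2
    have h2 := Nat.lt_succ_iff.1 p.2.2
    have h3 : a + a = p.1 + p.2 + (a + a - p.1 - p.2) := by omega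
    have h4 : u ^ (p.1 : ℕ) * v ^ (p.2 : ℕ) * w ^ (a + a - p.1 - p.2) ∈ V ^ (((p.1 : ℕ) + p.2) + (a + a - p.1 - p.2)) := by
      rw [pow_add, pow_add]
      exact Submodule.mul_mem_mul (Submodule.mul_mem_mul (Submodule.pow_mem_pow V hu _) (Submodule.pow_mem_pow V hv _))
        (Submodule.pow_mem_pow V hw _)
    rwa [← h3] at h4
  have hdep : ¬ LinearIndependent k fun p : Fin (a + 1) × Fin (a + 1) =>
      (⟨u ^ (p.1 : ℕ) * v ^ (p.2 : ℕ) * w ^ (a + a - p.1 - p.2), hmem p⟩ : ↥(V ^ (a + a))) := by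
    intro hli
    have h1 := hli.fintype_card_le_finrank
    have h2 := hCg (a + a)
    rw [Fintype.card_prod, Fintype.card_fin] at h1
    have h3 : (a + 1) * (a + 1) ≤ C * (a + a + 1) := h1.trans h2
    rw [ha] at h3
    nlinarith
  rw [Fintype.not_linearIndependent_iff] at hdep
  obtain ⟨lam, hlam, p₀, hp₀⟩ := hdep
  have hinf : Infinite k := inferInstance
  obtain ⟨c, c', hc⟩ := exists_c lam fun h => hp₀ (congrFun h p₀)
  have hrel : ∑ p : Fin (a + 1) × Fin (a + 1), lam p • (u ^ (p.1 : ℕ) * v ^ (p.2 : ℕ) * w ^ (a + a - p.1 - p.2)) = 0 := by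
    have h1 := congrArg Subtype.val hlam
    rw [Submodule.coe_sum] at h1
    exact h1
  -- the new elements
  set u' := u - c • w with hu'
  set v' := v - c' • w with hv'
  set P := Submodule.span k {u', v'} with hP
  set W := Submodule.span k {u, v} ⊔ Submodule.span k {w} with hW
  have huW : u ∈ W := Submodule.mem_sup_left (Submodule.subset_span (by simp))
  have hvW : v ∈ W := Submodule.mem_sup_left (Submodule.subset_span (by simp))
  have hwW : w ∈ W := Submodule.mem_sup_right (Submodule.mem_span_singleton_self w)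
  have hPW : P ≤ W := by
    rw [hP, Submodule.span_le]
    rintro x (rfl | hx)
    · exact Submodule.sub_mem _ huW (Submodule.smul_mem _ _ hwW)
    · rw [Set.mem_singleton_iff] at hx
      rw [hx]
      exact Submodule.sub_mem _ hvW (Submodule.smul_mem _ _ hwW)
  have hWP : W = Submodule.span k {w} ⊔ P := by
    refine le_antisymm (sup_le ?_ le_sup_left) (sup_le le_sup_right hPW)
    rw [Submodule.span_le]
    have hwS : w ∈ Submodule.span k {w} ⊔ P := Submodule.mem_sup_left (Submodule.mem_span_singleton_self w)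
    have hu'S : u' ∈ Submodule.span k {w} ⊔ P := Submodule.mem_sup_right (Submodule.subset_span (by simp))
    have hv'S : v' ∈ Submodule.span k {w} ⊔ P := Submodule.mem_sup_right (Submodule.subset_span (by simp))
    rintro x (rfl | hx)
    · have h1 : x = u' + c • w := by rw [hu']; abel
      rw [h1]
      exact Submodule.add_mem _ hu'S (Submodule.smul_mem _ _ hwS)
    · rw [Set.mem_singleton_iff] at hx
      have h1 : x = v' + c' • w := by rw [hv', hx]; abel
      rw [h1]
      exact Submodule.add_mem _ hv'S (Submodule.smul_mem _ _ hwS)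
  have h1W : ∀ {x : E}, x ∈ W → x ∈ W ^ 1 := fun hx => by rwa [pow_one]
  have cu : Cg P W 1 u (c • w) := by
    refine ⟨h1W huW, h1W (Submodule.smul_mem _ _ hwW), ?_⟩
    show u - c • w ∈ P * W ^ 0
    rw [pow_zero, mul_one]
    exact Submodule.subset_span (by simp [hu'])
  have cv : Cg P W 1 v (c' • w) := by
    refine ⟨h1W hvW, h1W (Submodule.smul_mem _ _ hwW), ?_⟩
    show v - c' • w ∈ P * W ^ 0
    rw [pow_zero, mul_one]
    exact Submodule.subset_span (by simp [hv'])
  have cw : Cg P W 1 w w := by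
    refine ⟨h1W hwW, h1W hwW, ?_⟩
    rw [sub_self]
    exact Submodule.zero_mem _
  have hcong : ∀ p : Fin (a + 1) × Fin (a + 1), u ^ (p.1 : ℕ) * v ^ (p.2 : ℕ) * w ^ (a + a - p.1 - p.2) -
      (c ^ (p.1 : ℕ) * c' ^ (p.2 : ℕ)) • w ^ (a + a) ∈ Qs P W (a + a) := by
    intro p
    have h1 := Nat.lt_succ_iff.1 p.1.2
    have h2 := Nat.lt_succ_iff.1 p.2.2
    have h3 : p.1 + p.2 + (a + a - p.1 - p.2) = a + a := by omega
    have h4 := (((cu.pow p.1).mul (cv.pow p.2)).mul (cw.pow (a + a - p.1 - p.2))).2.2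
    rw [h3] at h4
    have h5 : (c • w) ^ (p.1 : ℕ) * (c' • w) ^ (p.2 : ℕ) * w ^ (a + a - p.1 - p.2) =
        (c ^ (p.1 : ℕ) * c' ^ (p.2 : ℕ)) • w ^ (a + a) := by
      rw [smul_pow, smul_pow, smul_mul_smul_comm, smul_mul_assoc, ← pow_add, ← pow_add, h3]
    rwa [h5] at h4
  have hwQ : w ^ (a + a) ∈ Qs P W (a + a) := by
    have h1 : (∑ p, lam p * (c ^ (p.1 : ℕ) * c' ^ (p.2 : ℕ))) • w ^ (a + a) ∈ Qs P W (a + a) := by
      have h2 : (∑ p, lam p * (c ^ (p.1 : ℕ) * c' ^ (p.2 : ℕ))) • w ^ (a + a) =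
          -∑ p, lam p • (u ^ (p.1 : ℕ) * v ^ (p.2 : ℕ) * w ^ (a + a - p.1 - p.2) -
            (c ^ (p.1 : ℕ) * c' ^ (p.2 : ℕ)) • w ^ (a + a)) := by
        rw [Finset.sum_smul]
        simp only [smul_sub, Finset.sum_sub_distrib, hrel, zero_sub, neg_neg, smul_smul]
      rw [h2]
      exact Submodule.neg_mem _ (Submodule.sum_mem _ fun p _ => Submodule.smul_mem _ _ (hcong p))
    have h2 := Submodule.smul_mem (Qs P W (a + a)) (∑ p, lam p * (c ^ (p.1 : ℕ) * c' ^ (p.2 : ℕ)))⁻¹ h1
    rwa [smul_smul, inv_mul_cancel₀ hc, one_smul] at h2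
  refine ⟨u', v', Submodule.sub_mem _ hu (Submodule.smul_mem _ _ hw), Submodule.sub_mem _ hv (Submodule.smul_mem _ _ hw),
    hPW, a + a, ?_⟩
  have h1 := pow_sup_le (Submodule.span k {w}) P (a + a)
  rw [← hWP] at h1
  refine h1.trans (sup_le ?_ le_rfl)
  rw [Submodule.span_pow, Set.singleton_pow, Submodule.span_singleton_le_iff_mem, pow_succ']
  have h2 := Qs_mul (n := 1) (h1W hwW) hwQ
  rw [add_comm 1 (a + a)] at h2
  exact h2

/-- Two elements of `V` generate the `V ^ m` up to finitely many degrees. -/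
theorem pencil [CharZero k] {V : Submodule k E} [FiniteDimensional k V] (hC : Crv V) :
    ∃ (a b : E) (m0 : ℕ), a ∈ V ∧ b ∈ V ∧ a ≠ 0 ∧ b ≠ 0 ∧ ∀ m, m0 ≤ m → V ^ (m + 1) = Submodule.span k {a, b} * V ^ m := by
  classical
  obtain ⟨Y, hY⟩ := (Submodule.fg_iff_finiteDimensional V).2 inferInstance
  have hind : ∀ Y' : Finset E, (Y' : Set E) ⊆ V → ∃ a b : E, a ∈ V ∧ b ∈ V ∧
      Red (Submodule.span k {a, b}) (Submodule.span k (Y' : Set E)) := by
    intro Y'
    induction Y' using Finset.induction_on with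
    | empty =>
      intro _
      refine ⟨0, 0, Submodule.zero_mem _, Submodule.zero_mem _, ?_, 0, ?_⟩
      · simp
      · simp
    | insert w Y' _ ih =>
      intro hsub
      rw [Finset.coe_insert, Set.insert_subset_iff] at hsub
      obtain ⟨a, b, ha, hb, hab⟩ := ih hsub.2
      obtain ⟨a', b', ha', hb', hab'⟩ := red_three hC ha hb hsub.1
      refine ⟨a', b', ha', hb', ?_⟩
      have h1 := hab'.trans (hab.add (Submodule.span k {w}))
      have h2 : Submodule.span k (insert w (Y' : Set E)) = Submodule.span k (Y' : Set E) ⊔ Submodule.span k {w} := by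
        rw [Submodule.span_insert, sup_comm]
      rw [Finset.coe_insert, h2]
      exact h1
  obtain ⟨a, b, ha, hb, hab, m, hm⟩ := hind Y (by
    rw [← hY]
    exact Submodule.subset_span)
  rw [hY] at hab hm
  have hall : ∀ m', m ≤ m' → V ^ (m' + 1) = Submodule.span k {a, b} * V ^ m' := by
    intro m' hm'
    refine le_antisymm ?_ ?_
    · obtain ⟨j, rfl⟩ := Nat.exists_eq_add_of_le hm'
      calc V ^ (m + j + 1) = V ^ j * V ^ (m + 1) := by rw [← pow_add]; congr 1; omega
        _ ≤ V ^ j * (Submodule.span k {a, b} * V ^ m) := mul_le_mul_r4 hm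
        _ = Submodule.span k {a, b} * V ^ (m + j) := by rw [pow_add]; ring
    · rw [pow_succ']
      exact mul_le_mul_l4 hab
  have hV0 : ∀ n, V ^ n ≠ ⊥ := by
    intro n h
    have h1 : (1 : E) ^ n ∈ V ^ n := Submodule.pow_mem_pow V hC.one n
    rw [h, one_pow, Submodule.mem_bot] at h1
    exact one_ne_zero h1
  by_cases ha0 : a = 0
  · by_cases hb0 : b = 0
    · exfalso
      apply hV0 (m + 1)
      rw [hall m le_rfl, ha0, hb0]
      simp
    · refine ⟨b, b, m, hb, hb, hb0, hb0, fun m' hm' => ?_⟩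
      rw [hall m' hm', ha0, Submodule.span_insert_zero]
      simp
  · by_cases hb0 : b = 0
    · refine ⟨a, a, m, ha, ha, ha0, ha0, fun m' hm' => ?_⟩
      rw [hall m' hm', hb0, Set.pair_comm, Submodule.span_insert_zero]
      simp
    · exact ⟨a, b, m, ha, hb, ha0, hb0, hall⟩

end

end Pool.Agent.CV
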